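import Mathlib
import Pool.Agent.Q72.SQ.Egg

/-!
# Squeezing function tending to one at a weakly pseudoconvex point of finite type

The egg `{|z₀|² + |z₁|⁴ < 1}` in `ℂ²` is bounded, convex, has smooth (real analytic) pseudoconvex
boundary of finite type, the boundary point `(1,0)` is not strongly pseudoconvex, and there is a
sequence converging to `(1,0)` along which the squeezing function tends to `1`.
-/

set_option autoImplicit false

open Metric Filter Topology Set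

namespace Pool.Agent.Results.MP_63facb_an.WeakPointSqueezing

/-- `ℂⁿ` with the Euclidean norm. -/
abbrev Cn (n : ℕ) := EuclideanSpace ℂ (Fin n)

variable {n : ℕ}

/-- Holomorphic embeddings of the open set `D` of `ℂⁿ` into `ℂⁿ`: injective holomorphic
immersions. -/
def IsHolEmbedding (D : Set (Cn n)) (F : Cn n → Cn n) : Prop :=
  DifferentiableOn ℂ F D ∧ InjOn F D ∧ ∀ x ∈ D, Function.Injective (fderiv ℂ F x)

/-- The squeezing function of `D` at `z`: the supremum of all `r > 0` such that some holomorphic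
embedding `F : D → B(0,1)` with `F z = 0` has an image containing `B(0,r)`. -/
noncomputable def squeezing (D : Set (Cn n)) (z : Cn n) : ℝ :=
  sSup {r : ℝ | 0 < r ∧ ∃ F : Cn n → Cn n, IsHolEmbedding D F ∧ MapsTo F D (ball 0 1) ∧
    F z = 0 ∧ ball 0 r ⊆ F '' D}

/-- `ρ` is a global smooth defining function of `D`: `D = {ρ < 0}`, `ρ` is `C^∞`, and on the
boundary of `D` the function `ρ` vanishes and its differential does not. -/
def IsDefining (D : Set (Cn n)) (ρ : Cn n → ℝ) : Prop :=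
  ContDiff ℝ (⊤ : ℕ∞) ρ ∧ (∀ z, z ∈ D ↔ ρ z < 0) ∧
    ∀ z ∈ frontier D, ρ z = 0 ∧ fderiv ℝ ρ z ≠ 0

/-- `w` is a complex tangent vector at `q` to the boundary `{ρ = 0}`. -/
def IsComplexTangent (ρ : Cn n → ℝ) (q w : Cn n) : Prop :=
  fderiv ℝ ρ q w = 0 ∧ fderiv ℝ ρ q (Complex.I • w) = 0

/-- The Levi form of `ρ` at `q`, `Σ (∂²ρ/∂z_j∂z̄_k)(q) w_j w̄_k`, written as a quarter of the sum
of the second derivatives of `ρ` in the directions `w` and `i w`. -/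
noncomputable def leviForm (ρ : Cn n → ℝ) (q w : Cn n) : ℝ :=
  (1 / 4) * (iteratedFDeriv ℝ 2 ρ q ![w, w] +
    iteratedFDeriv ℝ 2 ρ q ![Complex.I • w, Complex.I • w])

/-- Levi pseudoconvexity of `{ρ < 0}` at the boundary point `q`. -/
def LeviPseudoconvexAt (ρ : Cn n → ℝ) (q : Cn n) : Prop :=
  ∀ w : Cn n, IsComplexTangent ρ q w → 0 ≤ leviForm ρ q w

/-- Strong pseudoconvexity of `{ρ < 0}` at the boundary point `q`. -/
def StronglyPseudoconvexAt (ρ : Cn n → ℝ) (q : Cn n) : Prop :=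
  ∀ w : Cn n, w ≠ 0 → IsComplexTangent ρ q w → 0 < leviForm ρ q w

/-- Finite D'Angelo type at `q`: for some `T`, every germ `f` at `0` of a nonconstant holomorphic
disc with `f(0) = q` satisfies `ord(ρ ∘ f) ≤ T · ord(f - q)`, where `ord(ρ ∘ f) ≥ k` means
`ρ (f ζ) = O(|ζ|^k)`. -/
def FiniteDAngeloType (ρ : Cn n → ℝ) (q : Cn n) : Prop :=
  ∃ T : ℕ, ∀ f : ℂ → Cn n, AnalyticAt ℂ f 0 → f 0 = q → ∀ m k : ℕ,
    analyticOrderAt (fun ζ => f ζ - q) 0 = m →
    (fun ζ => ρ (f ζ)) =O[𝓝 0] (fun ζ : ℂ => ‖ζ‖ ^ k) → k ≤ T * m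

/-! ### Proofs -/

lemma embedding_of_inverse {D : Set (Cn 2)} (hD : IsOpen D) {H K : Cn 2 → Cn 2}
    (hH : ∀ x ∈ D, DifferentiableAt ℂ H x) (hK : ∀ x ∈ D, DifferentiableAt ℂ K (H x))
    (hKH : ∀ x ∈ D, K (H x) = x) : IsHolEmbedding D H := by
  refine ⟨fun x hx => (hH x hx).differentiableWithinAt, ?_, ?_⟩
  · intro x hx y hy hxy
    rw [← hKH x hx, ← hKH y hy, hxy]
  · intro x hx
    have h1 := (hK x hx).hasFDerivAt.comp x (hH x hx).hasFDerivAt
    have h2 : K ∘ H =ᶠ[𝓝 x] id := by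
      filter_upwards [hD.mem_nhds hx] with y hy using hKH y hy
    have h3 := (h1.congr_of_eventuallyEq h2.symm).unique (hasFDerivAt_id x)
    intro v w hvw
    have h4 : (fderiv ℂ K (H x)).comp (fderiv ℂ H x) v =
        (fderiv ℂ K (H x)).comp (fderiv ℂ H x) w := by
      simp only [ContinuousLinearMap.comp_apply, hvw]
    rw [h3] at h4
    simpa using h4

lemma squeezing_le_one (D : Set (Cn 2)) (z : Cn 2) :
    ∀ r ∈ {r : ℝ | 0 < r ∧ ∃ F : Cn 2 → Cn 2, IsHolEmbedding D F ∧ MapsTo F D (ball 0 1) ∧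
    F z = 0 ∧ ball 0 r ⊆ F '' D}, r ≤ 1 := by
  rintro r ⟨hr, F, -, hF, -, hsub⟩
  by_contra h
  push Not at h
  have h1 : (!₂[(1 : ℂ), 0] : Cn 2) ∈ ball (0 : Cn 2) r := by
    rw [mem_ball_zero_iff]
    have : ‖(!₂[(1 : ℂ), 0] : Cn 2)‖ ^ 2 = 1 := by
      rw [Q72.SQ.nsq]; simp
    have h2 : ‖(!₂[(1 : ℂ), 0] : Cn 2)‖ = 1 := by
      nlinarith [norm_nonneg (!₂[(1 : ℂ), 0] : Cn 2)]
    rw [h2]; exact h
  obtain ⟨x, hx, hxe⟩ := hsub h1
  have h3 := hF hx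
  rw [hxe, mem_ball_zero_iff] at h3
  have : ‖(!₂[(1 : ℂ), 0] : Cn 2)‖ ^ 2 = 1 := by
    rw [Q72.SQ.nsq]; simp
  nlinarith [norm_nonneg (!₂[(1 : ℂ), 0] : Cn 2)]

open Q72.SQ in
lemma squeezing_ge {b t r : ℝ} (hb0 : 0 ≤ b) (hb1 : b < 1) (ht0 : 0 ≤ t) (ht1 : t < 1)
    (hr0 : 0 < r) (hr1 : r < 1) (hc : 1 - t ^ 2 ≤ 2 * (1 - r) ^ 2 * (1 - r ^ 2)) :
    r ≤ squeezing egg (Ψ b !₂[0, (t : ℂ)]) := by
  have h0t : (!₂[0, (t : ℂ)] : C2) ∈ egg := by
    rw [mem_egg]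
    have h4 : t ^ 4 < 1 := pow_lt_one₀ ht0 ht1 (by norm_num)
    simp [Complex.norm_real, abs_of_nonneg ht0, h4]
  apply le_csSup ⟨1, squeezing_le_one egg _⟩
  refine ⟨hr0, fun w => F t (Φ b w), ?_, ?_, ?_, ?_⟩
  · apply embedding_of_inverse egg_open (K := fun u => Ψ b (G t u))
    · intro x hx
      exact DifferentiableAt.comp (g := F t) x (F_diff ht0 ht1 (Φ_egg hb0 hb1 hx))
        (Φ_diff hb0 hb1 hx)
    · intro x hx
      have hΦ := Φ_egg hb0 hb1 hx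
      have hG : G t (F t (Φ b x)) = Φ b x := GF ht0 ht1 hΦ
      have h1 : DifferentiableAt ℂ (Ψ b) (G t (F t (Φ b x))) := by
        rw [hG]; exact Ψ_diff hb0 hb1 hΦ
      exact DifferentiableAt.comp (g := Ψ b) _ h1 (G_diff ht0 ht1 (F_ball ht0 ht1 hΦ))
    · intro x hx
      simp only [GF ht0 ht1 (Φ_egg hb0 hb1 hx), ΨΦ hb0 hb1 hx]
  · intro w hw
    rw [mem_ball_zero_iff]
    exact F_ball ht0 ht1 (Φ_egg hb0 hb1 hw)
  · simp only [ΦΨ hb0 hb1 h0t]
    ext i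
    fin_cases i
    · show F t !₂[0, (t : ℂ)] 0 = 0
      rw [F0]; simp
    · show F t !₂[0, (t : ℂ)] 1 = 0
      rw [F1]; simp
  · intro u hu
    rw [mem_ball_zero_iff] at hu
    have hGe := G_egg ht0 ht1 hr0 hr1 hc hu
    refine ⟨Ψ b (G t u), Ψ_egg hb0 hb1 hGe, ?_⟩
    simp only [ΦΨ hb0 hb1 hGe, FG ht0 ht1 (hu.trans hr1)]

/-- There is a bounded convex domain `D` of `ℂ²` with a global smooth defining function, all of
whose boundary points are Levi pseudoconvex and of finite D'Angelo type, a boundary point `p` that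
is not strongly pseudoconvex, and a sequence in `D` converging to `p` along which the squeezing
function of `D` tends to `1`. -/
theorem result : ∃ (D : Set (Cn 2)) (ρ : Cn 2 → ℝ) (p : Cn 2),
    IsOpen D ∧ IsConnected D ∧ Bornology.IsBounded D ∧ Convex ℝ D ∧ IsDefining D ρ ∧
    (∀ q ∈ frontier D, LeviPseudoconvexAt ρ q ∧ FiniteDAngeloType ρ q) ∧
    p ∈ frontier D ∧ ¬ StronglyPseudoconvexAt ρ p ∧
    ∃ z : ℕ → Cn 2, (∀ ν, z ν ∈ D) ∧ Tendsto z atTop (𝓝 p) ∧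
      Tendsto (fun ν => squeezing D (z ν)) atTop (𝓝 1) := by
  -- the sequence
  set b : ℕ → ℝ := fun ν => 1 - 1 / ((ν : ℝ) + 2) with hb
  have hb0 : ∀ ν, 0 ≤ b ν := by
    intro ν
    have h1 : 1 / ((ν : ℝ) + 2) ≤ 1 := by
      rw [div_le_one (by positivity)]
      have : (0 : ℝ) ≤ ν := by positivity
      linarith
    simp only [hb]; linarith
  have hb1 : ∀ ν, b ν < 1 := by
    intro ν
    have h1 : 0 < 1 / ((ν : ℝ) + 2) := by positivity
    simp only [hb]; linarith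
  have hblim : Tendsto b atTop (𝓝 1) := by
    have h1 : Tendsto (fun ν : ℕ => 1 / ((ν : ℝ) + 2)) atTop (𝓝 0) := by
      have := tendsto_one_div_add_atTop_nhds_zero_nat (𝕜 := ℝ)
      have h2 := this.comp (tendsto_add_atTop_nat 1)
      refine h2.congr fun ν => ?_
      simp only [Function.comp]
      push_cast
      ring_nf
    have := (tendsto_const_nhds (x := (1 : ℝ))).sub h1
    simpa [hb] using this
  set z : ℕ → Cn 2 := fun ν => Q72.SQ.Ψ (b ν) !₂[0, (b ν : ℂ)] with hz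
  have hmem0 : ∀ ν, (!₂[0, (b ν : ℂ)] : Cn 2) ∈ Q72.SQ.egg := by
    intro ν
    rw [Q72.SQ.mem_egg]
    have h4 : b ν ^ 4 < 1 := pow_lt_one₀ (hb0 ν) (hb1 ν) (by norm_num)
    simp [Complex.norm_real, abs_of_nonneg (hb0 ν), h4]
  have hzmem : ∀ ν, z ν ∈ Q72.SQ.egg := fun ν => Q72.SQ.Ψ_egg (hb0 ν) (hb1 ν) (hmem0 ν)
  have hz0 : ∀ ν, z ν 0 = (b ν : ℂ) := by
    intro ν
    simp only [hz]
    rw [Q72.SQ.Ψ0]; simp
  have hz1 : ∀ ν, ‖z ν 1‖ ^ 4 ≤ 1 - b ν ^ 2 := by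
    intro ν
    have := Q72.SQ.mem_egg.1 (hzmem ν)
    rw [hz0 ν, Complex.norm_real, Real.norm_of_nonneg (hb0 ν)] at this
    linarith
  have hzlim : Tendsto z atTop (𝓝 (!₂[(1 : ℂ), 0] : Cn 2)) := by
    rw [tendsto_iff_norm_sub_tendsto_zero]
    have hn : ∀ ν, ‖z ν - (!₂[(1 : ℂ), 0] : Cn 2)‖ ^ 2 = (1 - b ν) ^ 2 + ‖z ν 1‖ ^ 2 := by
      intro ν
      rw [Q72.SQ.nsq]
      have e0 : (z ν - (!₂[(1 : ℂ), 0] : Cn 2)) 0 = ((b ν - 1 : ℝ) : ℂ) := by
        simp [hz0 ν]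
      have e1 : (z ν - (!₂[(1 : ℂ), 0] : Cn 2)) 1 = z ν 1 := by simp
      rw [e0, e1, Complex.norm_real, Real.norm_eq_abs, sq_abs]
      ring
    have h2 : Tendsto (fun ν => ‖z ν 1‖ ^ 2) atTop (𝓝 0) := by
      have h3 : Tendsto (fun ν => Real.sqrt (1 - b ν ^ 2)) atTop (𝓝 0) := by
        have h4 : Tendsto (fun ν => 1 - b ν ^ 2) atTop (𝓝 (1 - 1 ^ 2)) :=
          tendsto_const_nhds.sub (hblim.pow 2)
        have h5 := (Real.continuous_sqrt.tendsto _).comp h4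
        simpa [Function.comp_def] using h5
      refine squeeze_zero (fun ν => by positivity) (fun ν => ?_) h3
      apply Real.le_sqrt_of_sq_le
      have := hz1 ν
      calc (‖z ν 1‖ ^ 2) ^ 2 = ‖z ν 1‖ ^ 4 := by ring
        _ ≤ _ := this
    have h6 : Tendsto (fun ν => ‖z ν - (!₂[(1 : ℂ), 0] : Cn 2)‖ ^ 2) atTop (𝓝 0) := by
      have h7 : Tendsto (fun ν => (1 - b ν) ^ 2) atTop (𝓝 ((1 - 1) ^ 2)) :=
        (tendsto_const_nhds.sub hblim).pow 2
      have h8 := h7.add h2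
      simp only [sub_self, ne_eq, OfNat.ofNat_ne_zero, not_false_eq_true, zero_pow,
        add_zero] at h8
      exact h8.congr fun ν => (hn ν).symm
    have h9 := (Real.continuous_sqrt.tendsto _).comp h6
    rw [Real.sqrt_zero] at h9
    refine h9.congr fun ν => ?_
    simp only [Function.comp]
    exact Real.sqrt_sq (norm_nonneg _)
  have hrho1 : Q72.SQ.rho (!₂[(1 : ℂ), 0] : Cn 2) = 0 := by
    unfold Q72.SQ.rho; simp
  refine ⟨Q72.SQ.egg, Q72.SQ.rho, !₂[(1 : ℂ), 0], Q72.SQ.egg_open,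
    ⟨⟨_, hzmem 0⟩, Q72.SQ.egg_convex.isPreconnected⟩, Q72.SQ.egg_bounded, Q72.SQ.egg_convex,
    ⟨Q72.SQ.rho_contDiff, fun _ => Iff.rfl, fun q hq => ?_⟩, fun q hq => ⟨?_, ?_⟩, ?_, ?_,
    z, hzmem, hzlim, ?_⟩
  · have h := Q72.SQ.rho_zero_of_frontier hq
    exact ⟨h, Q72.SQ.rho_fderiv_ne h⟩
  · intro w _
    unfold leviForm
    rw [Q72.SQ.rho_levi]
    positivity
  · exact ⟨4, fun f hf hf0 m k hm hk =>
      Q72.SQ.type_bound (Q72.SQ.rho_zero_of_frontier hq) hf hf0 hm hk⟩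
  · rw [Q72.SQ.egg_open.frontier_eq]
    refine ⟨mem_closure_of_tendsto hzlim (Eventually.of_forall hzmem), ?_⟩
    intro h
    have h2 : Q72.SQ.rho (!₂[(1 : ℂ), 0] : Cn 2) < 0 := h
    linarith
  · intro h
    have hne : (!₂[(0 : ℂ), 1] : Cn 2) ≠ 0 := by
      intro h0
      have := congrArg (fun x : Cn 2 => x 1) h0
      simp at this
    have h1 := h !₂[(0 : ℂ), 1] hne ⟨by rw [Q72.SQ.rho_fderiv]; simp,
      by rw [Q72.SQ.rho_fderiv]; simp⟩
    unfold leviForm at h1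
    rw [Q72.SQ.rho_levi] at h1
    simp at h1
  · rw [Metric.tendsto_atTop]
    intro ε hε
    -- choose r close to one
    set r : ℝ := max (1 / 2) (1 - ε / 2) with hr
    have hr0 : 0 < r := lt_max_of_lt_left (by norm_num)
    have hr1 : r < 1 := max_lt (by norm_num) (by linarith)
    have hrε : 1 - ε / 2 ≤ r := le_max_right _ _
    have hpos : 0 < 2 * (1 - r) ^ 2 * (1 - r ^ 2) := by
      have h1 : 0 < 1 - r := by linarith
      have h2 : 0 < 1 - r ^ 2 := by nlinarith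
      positivity
    have hev : ∀ᶠ ν in atTop, 1 - b ν ^ 2 ≤ 2 * (1 - r) ^ 2 * (1 - r ^ 2) := by
      have h4 : Tendsto (fun ν => 1 - b ν ^ 2) atTop (𝓝 (1 - 1 ^ 2)) :=
        tendsto_const_nhds.sub (hblim.pow 2)
      have h5 : (1 : ℝ) - 1 ^ 2 < 2 * (1 - r) ^ 2 * (1 - r ^ 2) := by
        rw [one_pow, sub_self]; exact hpos
      exact h4.eventually_le_const h5
    obtain ⟨N, hN⟩ := eventually_atTop.1 hev
    refine ⟨N, fun ν hν => ?_⟩
    have h1 : r ≤ squeezing Q72.SQ.egg (z ν) :=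
      squeezing_ge (hb0 ν) (hb1 ν) (hb0 ν) (hb1 ν) hr0 hr1 (hN ν hν)
    have h2 : squeezing Q72.SQ.egg (z ν) ≤ 1 := by
      have hne : {r : ℝ | 0 < r ∧ ∃ F : Cn 2 → Cn 2, IsHolEmbedding Q72.SQ.egg F ∧
          MapsTo F Q72.SQ.egg (ball 0 1) ∧ F (z ν) = 0 ∧ ball 0 r ⊆ F '' Q72.SQ.egg}.Nonempty := by
        by_contra hemp
        rw [Set.not_nonempty_iff_eq_empty] at hemp
        unfold squeezing at h1
        rw [hemp, Real.sSup_empty] at h1
        linarith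
      exact csSup_le hne (squeezing_le_one _ _)
    rw [Real.dist_eq, abs_lt]
    constructor <;> linarith

end Pool.Agent.Results.MP_63facb_an.WeakPointSqueezing
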